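import Pool.Agent.W223.HZ.Stms

set_option autoImplicit false

/-! Project HZ: the determinants vanish, chart 2. -/

namespace Pool.Agent.W131.HZ.VA2
open Pool.Agent.W223.HZ
open Polynomial

noncomputable section

lemma cub_eq {R T a b c d p q : ℝ} (hR : 0 < R) (hT : 0 < T) (hq : q ≠ 0)
    (h : a * p ^ 3 + 3 * b * p ^ 2 * q + 3 * c * p * q ^ 2 + d * q ^ 3 = 1) :
    (a * T ^ 3 / R) * (p / (T ^ 2 * q)) ^ 3 + 3 * (b * T / R) * (p / (T ^ 2 * q)) ^ 2 +
      3 * (c / (R * T)) * (p / (T ^ 2 * q)) + d / (R * T ^ 3) = 1 / (R * T ^ 3 * q ^ 3) := by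
  rw [← h]
  field_simp

lemma qua_eq {R T a b c p q : ℝ} (hR : 0 < R) (hT : 0 < T) (hq : q ≠ 0) :
    (a * T ^ 3 / R) * (p / (T ^ 2 * q)) ^ 2 + 2 * (b * T / R) * (p / (T ^ 2 * q)) + c / (R * T) =
      (a * p ^ 2 + 2 * b * p * q + c * q ^ 2) / (R * T * q ^ 2) := by
  field_simp

lemma y_le {T V p q : ℝ} (hT : 0 < T) (hq : q ≠ 0) (hp : |p| ≤ 200 * (T * V))
    (hV : V ≤ 200 * (|q| * T)) : |p / (T ^ 2 * q)| ≤ 8000000 := by
  have hq' : 0 < |q| := abs_pos.2 hq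
  rw [abs_div, abs_mul, abs_of_pos (by positivity : 0 < T ^ 2), div_le_iff₀ (by positivity)]
  have h1 : T * V ≤ T * (200 * (|q| * T)) := mul_le_mul_of_nonneg_left hV hT.le
  have h2 : 0 ≤ T ^ 2 * |q| := by positivity
  have h3 : T * (200 * (|q| * T)) = 200 * (T ^ 2 * |q|) := by ring
  linarith

lemma e_le {R T V q : ℝ} (hR : 1 ≤ R) (hT : 0 < T) (hq : q ≠ 0) (hV0 : 0 < V)
    (hV : V ≤ 200 * (|q| * T)) : |1 / (R * T ^ 3 * q ^ 3)| ≤ 8000000 / V ^ 3 := by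
  have hq' : 0 < |q| := abs_pos.2 hq
  have hR0 : 0 < R := by linarith
  rw [abs_div, abs_one, abs_mul, abs_pow, abs_of_pos (by positivity : 0 < R * T ^ 3),
    div_le_div_iff₀ (by positivity) (by positivity)]
  have h1 : V ^ 3 ≤ (200 * (|q| * T)) ^ 3 := pow_le_pow_left₀ hV0.le hV 3
  have h2 : 0 ≤ T ^ 3 * |q| ^ 3 := by positivity
  have h3 : 1 * (T ^ 3 * |q| ^ 3) ≤ R * (T ^ 3 * |q| ^ 3) := mul_le_mul_of_nonneg_right hR h2
  have h4 : (200 * (|q| * T)) ^ 3 = 8000000 * (T ^ 3 * |q| ^ 3) := by ring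
  have h5 : 8000000 * (R * T ^ 3 * |q| ^ 3) = 8000000 * (R * (T ^ 3 * |q| ^ 3)) := by ring
  rw [h5]
  linarith

lemma low_le {R T V q F : ℝ} (hR : 0 < R) (hT : 0 < T) (hq : q ≠ 0)
    (hqV : |q| * T ≤ 200 * V) (hF : R * V ^ 2 ≤ 200 * (T * |F|)) :
    1 ≤ 8000000 * |F / (R * T * q ^ 2)| := by
  have hq' : 0 < |q| := abs_pos.2 hq
  have hq2 : 0 < q ^ 2 := by positivity
  rw [abs_div, abs_of_pos (by positivity : 0 < R * T * q ^ 2), ← mul_div_assoc,
    le_div_iff₀ (by positivity), one_mul]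
  have h1 : (|q| * T) ^ 2 ≤ (200 * V) ^ 2 := pow_le_pow_left₀ (by positivity) hqV 2
  have h2 : (|q| * T) ^ 2 = q ^ 2 * T ^ 2 := by rw [mul_pow, sq_abs]
  rw [h2] at h1
  have h3 : R * (q ^ 2 * T ^ 2) ≤ R * (200 * V) ^ 2 := mul_le_mul_of_nonneg_left h1 hR.le
  have h4 : (R * T * q ^ 2) * T ≤ (8000000 * |F|) * T := by
    have e1 : (R * T * q ^ 2) * T = R * (q ^ 2 * T ^ 2) := by ring
    have e2 : R * (200 * V) ^ 2 = 40000 * (R * V ^ 2) := by ring
    have e3 : (8000000 * |F|) * T = 40000 * (200 * (T * |F|)) := by ring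
    rw [e1, e3]
    linarith
  exact le_of_mul_le_mul_right h4 hT

lemma param_mono {C₄ K S L V : ℝ} {ι : Type} {τ : ι → ℤ} {y : ι → ℝ} (hC₄ : 1 ≤ C₄) (hK : 1 ≤ K)
    (hL : 0 ≤ L / S) (h : Param C₄ S L (K / V ^ 3) τ y) : Param (C₄ * K) S L (1 / V ^ 3) τ y := by
  have hle : C₄ ≤ C₄ * K := by nlinarith
  intro m
  obtain ⟨f, l0, l1, ω, z, ε, h1, h2, h3, h4, h5, h6, h7, h8, h9⟩ := h m
  have hpow : C₄ ^ m ≤ (C₄ * K) ^ m := pow_le_pow_left₀ (by linarith) hle m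
  refine ⟨f, l0, l1, ω, z, ε, h1, fun j k => (h2 j k).trans hpow, h3.trans hle, h4.trans hle,
    ?_, ?_, ?_, h8, h9⟩
  · intro i
    have h10 := h5 i
    have h11 : 0 < C₄ ^ m := by positivity
    have h12 : 0 ≤ ω i := by
      by_contra hcon
      have := mul_nonpos_of_nonneg_of_nonpos h11.le (not_le.1 hcon).le
      linarith
    exact h10.trans (mul_le_mul_of_nonneg_right hpow h12)
  · intro i
    exact (h6 i).trans (mul_le_mul_of_nonneg_right hle hL)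
  · intro i
    refine (h7 i).trans (le_of_eq ?_)
    ring

lemma param_comp {C₄ S L e : ℝ} {ι κ : Type} {τ : ι → ℤ} {y : ι → ℝ} (g : κ → ι)
    (h : Param C₄ S L e τ y) : Param C₄ S L e (fun i => τ (g i)) (fun i => y (g i)) := by
  intro m
  obtain ⟨f, l0, l1, ω, z, ε, h1, h2, h3, h4, h5, h6, h7, h8, h9⟩ := h m
  exact ⟨f, l0, l1, fun i => ω (g i), fun i => z (g i), fun i => ε (g i), h1, h2, h3, h4,
    fun i => h5 (g i), fun i => h6 (g i), fun i => h7 (g i), fun i j => h8 (g i) j,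
    fun i => h9 (g i)⟩

/-- The integral determinant in terms of the real one. -/
lemma det_eq {m : ℕ} {T V : ℝ} (P Q τ : Fin m ⊕ Fin m → ℤ) (y : Fin m ⊕ Fin m → ℝ) (hT : 0 < T)
    (hP : ∀ i, (P i : ℝ) = Q i * (T ^ 2 * y i))
    (hQ : ∀ i, |(Q i : ℝ)| * T ≤ 200 * V) :
    |((Mat m P Q τ).det : ℝ)| ≤ (200 * V) ^ (2 * m) *
      |Matrix.det (Matrix.of fun i : Fin m ⊕ Fin m =>
        Sum.elim (fun j : Fin m => (τ i : ℝ) ^ (j : ℕ)) (fun j : Fin m => y i * (τ i : ℝ) ^ (j : ℕ)))|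
      := by
  set M : Matrix (Fin m ⊕ Fin m) (Fin m ⊕ Fin m) ℝ := Matrix.of fun i : Fin m ⊕ Fin m =>
    Sum.elim (fun j : Fin m => (τ i : ℝ) ^ (j : ℕ)) (fun j : Fin m => y i * (τ i : ℝ) ^ (j : ℕ))
    with hM
  set v : Fin m ⊕ Fin m → ℝ := Sum.elim (fun _ => T ^ 2) (fun _ => 1) with hv
  have h1 : ((Mat m P Q τ).det : ℝ) = ((Mat m P Q τ).map (Int.cast : ℤ → ℝ)).det := by
    have := Int.cast_det (R := ℝ) (Mat m P Q τ)
    exact this
  have h2 : (Mat m P Q τ).map (Int.cast : ℤ → ℝ) = Matrix.of fun i j => (Q i : ℝ) *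
      (Matrix.of fun i j => v j * M.submatrix id (Equiv.sumComm (Fin m) (Fin m)) i j) i j := by
    ext i j
    rw [Matrix.map_apply]
    simp only [Matrix.of_apply, Matrix.submatrix_apply, id]
    rcases j with j | j
    · simp only [Mat, hM, hv, Matrix.of_apply, Sum.elim_inl, Equiv.sumComm_apply, Sum.swap_inl,
        Sum.elim_inr]
      push_cast
      rw [hP i]
      ring
    · simp only [Mat, hM, hv, Matrix.of_apply, Sum.elim_inl, Equiv.sumComm_apply, Sum.swap_inr,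
        Sum.elim_inr]
      push_cast
      ring
  have h3 : ((Mat m P Q τ).det : ℝ) = (∏ i, (Q i : ℝ)) * ((∏ j, v j) *
      (M.submatrix id (Equiv.sumComm (Fin m) (Fin m))).det) := by
    rw [h1, h2, Matrix.det_mul_column, Matrix.det_mul_row]
  have h4 : |(M.submatrix id (Equiv.sumComm (Fin m) (Fin m))).det| = |M.det| := by
    have := Matrix.abs_det_submatrix_equiv_equiv (Equiv.refl (Fin m ⊕ Fin m))
      (Equiv.sumComm (Fin m) (Fin m)) M
    exact this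
  have h5 : ∏ j, v j = T ^ (2 * m) := by
    rw [hv, Fintype.prod_sum_type]
    simp only [Sum.elim_inl, Sum.elim_inr, Finset.prod_const, Finset.card_univ, Fintype.card_fin,
      one_pow, mul_one]
    rw [← pow_mul]
  have h6 : |∏ i, (Q i : ℝ)| * T ^ (2 * m) ≤ (200 * V) ^ (2 * m) := by
    have e1 : |∏ i, (Q i : ℝ)| * T ^ (2 * m) = ∏ i : Fin m ⊕ Fin m, (|(Q i : ℝ)| * T) := by
      rw [Finset.abs_prod, Finset.prod_mul_distrib, Finset.prod_const, Finset.card_univ,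
        Fintype.card_sum, Fintype.card_fin, two_mul]
    have e2 : (200 * V) ^ (2 * m) = ∏ _i : Fin m ⊕ Fin m, (200 * V) := by
      rw [Finset.prod_const, Finset.card_univ, Fintype.card_sum, Fintype.card_fin, two_mul]
    rw [e1, e2]
    exact Finset.prod_le_prod (fun i _ => by positivity) (fun i _ => hQ i)
  rw [h3, abs_mul, abs_mul, h4, h5, abs_of_pos (by positivity : 0 < T ^ (2 * m)), ← mul_assoc]
  exact mul_le_mul_of_nonneg_right h6 (abs_nonneg _)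

theorem t (hC : StmtC2R) (hB : StmtDPB) (hP : StmtPAR) : StmtVA2 := by
  obtain ⟨c₀, C₄, hc₀, hC₄, hC'⟩ := hC 8000000 (by norm_num)
  have hK1 : 1 ≤ C₄ * 8000000 := by linarith
  obtain ⟨C₅, hC₅, hB'⟩ := hB (C₄ * 8000000) hK1
  obtain ⟨S₁, hS₁, hP'⟩ := hP (C₅ * 200 ^ 2) (by linarith)
  refine ⟨c₀, max S₁ ((C₄ * 8000000) ^ 2), hc₀, le_max_of_le_left hS₁, ?_⟩
  intro R T V σ m a b c d₀ p₀ q₀ P Q D hR hT hS hσ hV hm hG hG0 hCh0 hcell hcell0 hd
  have hS1 : S₁ ≤ R * T ^ 3 := (le_max_left _ _).trans hS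
  have hS2 : (C₄ * 8000000) ^ 2 ≤ R * T ^ 3 := (le_max_right _ _).trans hS
  obtain ⟨Y, hY1, hY2⟩ := hP' (R * T ^ 3) σ m hS1 hσ hm
  have hT0 : 0 < T := by linarith
  have hR0 : 0 < R := by linarith
  set S : ℝ := R * T ^ 3 with hSdef
  have hS1' : 1 ≤ S := hS₁.trans hS1
  have hS0 : 0 < S := by linarith
  set L : ℝ := S ^ ((1 : ℝ) / 11) with hLdef
  have hL0 : 0 < L := Real.rpow_pos_of_pos hS0 _
  have hm1 : 1 ≤ m := by
    rw [hm]
    exact Nat.one_le_ceil_iff.2 (by linarith)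
  -- sizes
  have hhalf : C₄ * 8000000 ≤ S ^ ((1 : ℝ) / 2) := by
    rw [← Real.sqrt_eq_rpow]
    exact Real.le_sqrt_of_sq_le hS2
  have hV1 : S ^ ((1 : ℝ) / 2) ≤ V := by
    rw [hV]
    exact Real.rpow_le_rpow_of_exponent_le hS1' hσ
  have hVK : C₄ * 8000000 ≤ V := hhalf.trans hV1
  have hV1' : 1 ≤ V := hK1.trans hVK
  have hV0 : 0 < V := by linarith
  have hLS : (C₄ * 8000000) * L ≤ S := by
    calc (C₄ * 8000000) * L ≤ S ^ ((1 : ℝ) / 2) * S ^ ((1 : ℝ) / 11) :=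
          mul_le_mul_of_nonneg_right hhalf hL0.le
      _ = S ^ ((1 : ℝ) / 2 + (1 : ℝ) / 11) := (Real.rpow_add hS0 _ _).symm
      _ ≤ S ^ (1 : ℝ) := Real.rpow_le_rpow_of_exponent_le hS1' (by norm_num)
      _ = S := Real.rpow_one S
  have hLS' : C₄ * L ≤ S := by nlinarith
  have hV3 : V ≤ V ^ 3 := le_self_pow₀ hV1' (by norm_num)
  have he1 : C₄ * (8000000 / V ^ 3) ≤ 1 := by
    rw [← mul_div_assoc, div_le_one (by positivity)]
    exact hVK.trans hV3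
  -- facts on the points
  have fact : ∀ d p q : ℤ, Good 200 R T V a b c d p q → Chart2 200 R T V a b c p q →
      (q : ℝ) ≠ 0 := by
    intro d p q _ h2 h3
    have h4 := h2.1
    rw [h3, abs_zero, zero_mul, mul_zero] at h4
    linarith
  have fy : ∀ d p q : ℤ, Good 200 R T V a b c d p q → Chart2 200 R T V a b c p q →
      |(p : ℝ) / (T ^ 2 * q)| ≤ 8000000 := by
    intro d p q h1 h2
    exact y_le hT0 (fact d p q h1 h2) h1.hp h2.1
  have fe : ∀ d p q : ℤ, Good 200 R T V a b c d p q → Chart2 200 R T V a b c p q →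
      |(a * T ^ 3 / R) * ((p : ℝ) / (T ^ 2 * q)) ^ 3 + 3 * (b * T / R) * (p / (T ^ 2 * q)) ^ 2 +
      3 * (c / (R * T)) * (p / (T ^ 2 * q)) + d / S| ≤ 8000000 / V ^ 3 := by
    intro d p q h1 h2
    have h3 := h1.heq
    have h4 : (a : ℝ) * p ^ 3 + 3 * b * p ^ 2 * q + 3 * c * p * q ^ 2 + d * q ^ 3 = 1 := by
      exact_mod_cast h3
    rw [hSdef, cub_eq hR0 hT0 (fact d p q h1 h2) h4]
    exact e_le (by linarith) hT0 (fact d p q h1 h2) hV0 h2.1
  have fl : ∀ d p q : ℤ, Good 200 R T V a b c d p q → Chart2 200 R T V a b c p q →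
      1 ≤ 8000000 * |(a * T ^ 3 / R) * ((p : ℝ) / (T ^ 2 * q)) ^ 2 +
        2 * (b * T / R) * (p / (T ^ 2 * q)) + c / (R * T)| := by
    intro d p q h1 h2
    rw [qua_eq hR0 hT0 (fact d p q h1 h2)]
    apply low_le hR0 hT0 (fact d p q h1 h2) h1.hq
    have h3 := h2.2
    push_cast at h3
    exact h3
  have fd : ∀ d p q : ℤ, Good 200 R T V a b c d p q → |(d : ℝ) / S| ≤ 8000000 := by
    intro d p q h1
    have h2 := h1.hd
    rw [abs_div, abs_of_pos hS0, div_le_iff₀ hS0, hSdef]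
    have h3 : 0 < R * T ^ 3 := by positivity
    linarith
  have hA : |(a : ℝ) * T ^ 3 / R| ≤ 8000000 := by
    rw [abs_div, abs_mul, abs_of_pos hR0, abs_of_pos (by positivity : 0 < T ^ 3),
      div_le_iff₀ hR0]
    have := hG0.ha
    linarith
  have hBb : |(b : ℝ) * T / R| ≤ 8000000 := by
    rw [abs_div, abs_mul, abs_of_pos hR0, abs_of_pos hT0, div_le_iff₀ hR0]
    have := hG0.hb
    linarith
  have hGg : |(c : ℝ) / (R * T)| ≤ 8000000 := by
    have h3 : 0 < R * T := by positivity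
    rw [abs_div, abs_of_pos h3, div_le_iff₀ h3]
    have := hG0.hc
    linarith
  -- the family with the base point
  have hpar : Param C₄ S L (8000000 / V ^ 3)
      (fun o : Option (Fin m ⊕ Fin m) => o.elim 0 (fun i => D i - d₀))
      (fun o : Option (Fin m ⊕ Fin m) => o.elim ((p₀ : ℝ) / (T ^ 2 * q₀))
        (fun i => (P i : ℝ) / (T ^ 2 * Q i))) := by
    apply hC' S L (8000000 / V ^ 3) (a * T ^ 3 / R) (b * T / R) (c / (R * T))
      (Option (Fin m ⊕ Fin m)) _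
      (fun o : Option (Fin m ⊕ Fin m) => o.elim ((d₀ : ℝ) / S) (fun i => (D i : ℝ) / S)) _ none
      hS0 hL0.le hLS' (by positivity) he1 hA hBb hGg
    · rintro (_ | i)
      · exact fd d₀ p₀ q₀ hG0
      · exact fd (D i) (P i) (Q i) (hG i).1
    · rintro (_ | i)
      · exact fy d₀ p₀ q₀ hG0 hCh0
      · exact fy (D i) (P i) (Q i) (hG i).1 (hG i).2
    · rintro (_ | i)
      · exact fe d₀ p₀ q₀ hG0 hCh0
      · exact fe (D i) (P i) (Q i) (hG i).1 (hG i).2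
    · rintro (_ | i)
      · exact fl d₀ p₀ q₀ hG0 hCh0
      · exact fl (D i) (P i) (Q i) (hG i).1 (hG i).2
    · rintro (_ | i) (_ | j)
      · show |(p₀ : ℝ) / (T ^ 2 * q₀) - (p₀ : ℝ) / (T ^ 2 * q₀)| ≤ c₀
        rw [sub_self, abs_zero]
        exact hc₀.le
      · show |(p₀ : ℝ) / (T ^ 2 * q₀) - (P j : ℝ) / (T ^ 2 * Q j)| ≤ c₀
        rw [abs_sub_comm]
        exact hcell0 j
      · exact hcell0 i
      · exact hcell i j
    · rintro (_ | i)
      · show ((0 : ℤ) : ℝ) = S * ((d₀ : ℝ) / S - (d₀ : ℝ) / S)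
        rw [sub_self, mul_zero, Int.cast_zero]
      · show ((D i - d₀ : ℤ) : ℝ) = S * ((D i : ℝ) / S - (d₀ : ℝ) / S)
        push_cast
        field_simp
    · rintro (_ | i)
      · show |((0 : ℤ) : ℝ)| ≤ L
        rw [Int.cast_zero, abs_zero]
        exact hL0.le
      · show |((D i - d₀ : ℤ) : ℝ)| ≤ L
        push_cast
        exact hd i
  have hpar2 : Param (C₄ * 8000000) S L (1 / V ^ 3) (fun i : Fin m ⊕ Fin m => D i - d₀)
      (fun i : Fin m ⊕ Fin m => (P i : ℝ) / (T ^ 2 * Q i)) :=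
    param_mono hC₄ (by norm_num) (by positivity) (param_comp (fun i => some i) hpar)
  have hY2' : ∀ u : ℤ, |u| ≤ m →
      V ^ (3 * u - m) * L ^ (m * (m - 1)) * (L / S) ^ (u.natAbs ^ 2) ≤ Y := by
    intro u hu
    rw [hV]
    exact hY2 u hu
  have hdet := hB' m S L V hm1 hS0 hL0 hLS hV1' _ _ hpar2 Y hY2'
  have hY0 : 0 ≤ Y := by
    have h1 := hY2' 0 (by rw [abs_zero]; positivity)
    refine le_trans ?_ h1
    positivity
  have hmain := det_eq (V := V) P Q (fun i => D i - d₀) (fun i => (P i : ℝ) / (T ^ 2 * Q i)) hT0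
    (by
      intro i
      have h1 := fact (D i) (P i) (Q i) (hG i).1 (hG i).2
      field_simp)
    (fun i => (hG i).1.hq)
  set Dt : ℝ := |Matrix.det (Matrix.of fun i : Fin m ⊕ Fin m =>
    Sum.elim (fun j : Fin m => ((D i - d₀ : ℤ) : ℝ) ^ (j : ℕ))
      (fun j : Fin m => (P i : ℝ) / (T ^ 2 * Q i) * ((D i - d₀ : ℤ) : ℝ) ^ (j : ℕ)))| with hDt
  have hlt : |((Mat m P Q (fun i => D i - d₀)).det : ℝ)| < 1 := by
    have h1 : (200 * V) ^ (2 * m) * Dt ≤ (200 ^ 2) ^ (m ^ 2) * (C₅ ^ (m ^ 2) * Y) := by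
      have e1 : (200 * V) ^ (2 * m) * Dt = (200 ^ 2) ^ m * (V ^ (2 * m) * Dt) := by
        rw [mul_pow, pow_mul 200 2 m]
        ring
      rw [e1]
      have e2 : ((200 : ℝ) ^ 2) ^ m ≤ (200 ^ 2) ^ (m ^ 2) :=
        pow_le_pow_right₀ (by norm_num) (by nlinarith)
      exact mul_le_mul e2 hdet (by positivity) (by positivity)
    have h2 : ((200 : ℝ) ^ 2) ^ (m ^ 2) * (C₅ ^ (m ^ 2) * Y) = (C₅ * 200 ^ 2) ^ (m ^ 2) * Y := by
      rw [mul_pow C₅]
      ring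
    rw [h2] at h1
    exact (hmain.trans h1).trans_lt hY1
  have hlt' : |(Mat m P Q (fun i => D i - d₀)).det| < 1 := by exact_mod_cast hlt
  exact Int.abs_lt_one_iff.1 hlt'

end

end Pool.Agent.W131.HZ.VA2
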